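import Mathlib
import Pool.Agent.H17.Split.Defs
import Pool.Agent.H17.Split.Main

open Pool.Agent.H17.Split

/-- For all `k ≥ 3` and `m`, all but finitely many trees `T` with at most `m` non-leaf vertices
have the property that the class `𝒢(T, K_k)` is splittable. -/
theorem Pool.Agent.Results.MP_f994de_co.FewNonLeafVertices.result (k m : ℕ) (hk : 3 ≤ k) :
    ∃ N : ℕ, ∀ (n : ℕ) (T : SimpleGraph (Fin n)), N ≤ n → T.IsTree → (nonLeaf T).ncard ≤ m →
      Splittable T k :=
  main k m hk
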